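import Pool.Agent.helper82.SC.SpecB

/-! # sp: LRX. The black path of `XB` is the left right crossing -/

namespace Pool.Agent.helper82.SC

open Relation

lemma LRX_mem {W : Set V} {u v : V} (h : Con W u v) : v ∈ W := by
  obtain ⟨h0, h⟩ := h
  induction h with
  | refl => exact h0
  | tail _ h _ => exact h.2

lemma LRX_symm {W : Set V} {u v : V} (h : Con W u v) : Con W v u := by
  refine ⟨LRX_mem h, ?_⟩
  obtain ⟨h0, h⟩ := h
  have key : ∀ v : V, ReflTransGen (fun a b => TAdj a b ∧ b ∈ W) u v → v ∈ W ∧
      ReflTransGen (fun a b => TAdj a b ∧ b ∈ W) v u := by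
    intro v hv
    induction hv with
    | refl => exact ⟨h0, ReflTransGen.refl⟩
    | tail _ h ih => exact ⟨h.2, ReflTransGen.head ⟨h.1.symm, ih.1⟩ ih.2⟩
  exact (key v h).2

theorem LRX : LRX_stmt := by
  intro n D hn hD s hs
  obtain ⟨hU, hsec, ha⟩ := hD
  have hset : ((D.U : Set V) \ (s : Set V)) = (↑(Usq n \ s) : Set V) := by
    rw [hU, Finset.coe_sdiff]
  have hmem : ∀ w : V, w ∈ (↑(Usq n \ s) : Set V) → w ∈ Usq n := by
    intro w hw
    rw [Finset.coe_sdiff] at hw
    exact hw.1
  constructor
  · rintro ⟨u, w, hc, ⟨v, hv1, hv2, hv3, hv4⟩, ⟨v', hv1', hv2', hv3'⟩⟩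
    rw [hset] at hc
    rw [hU, mem_Usq] at hv1 hv1'
    rw [hsec] at hv3 hv3'
    refine ⟨w, u, ?_, ?_, LRX_symm hc⟩
    · unfold secsq at hv3'
      unfold TAdj at hv2'
      split_ifs at hv3' with h1 h2 h3
      · exact absurd hv3' (by decide)
      · exact absurd hv3' (by decide)
      · rcases hv2' with rfl | rfl | rfl | rfl | rfl | rfl <;> simp only at h3 <;> omega
      · exact absurd hv3' (by decide)
    · have hv4' : ¬ v.2 < 0 := by
        intro h
        rw [partD, if_pos h] at hv4
        exact absurd hv4 (by decide)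
      unfold secsq at hv3
      unfold TAdj at hv2
      split_ifs at hv3 with h2 h3
      · exact absurd hv3 (by decide)
      · exact absurd hv3 (by decide)
      · push Not at hv1
        have h5 := hv1 (by omega) (by omega) (by omega)
        rcases hv2 with rfl | rfl | rfl | rfl | rfl | rfl <;> simp only at h5 <;> omega
  · rintro ⟨u, v, h1, h2, hc⟩
    have hu := (mem_Usq n u).1 (hmem u hc.1)
    have hv := (mem_Usq n v).1 (hmem v (LRX_mem hc))
    refine ⟨v, u, ?_, ⟨(v.1 + 1, v.2), ?_, Or.inl rfl, ?_, ?_⟩, ⟨(u.1 - 1, u.2), ?_, Or.inr (Or.inl rfl), ?_⟩⟩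
    · rw [hset]
      exact LRX_symm hc
    · rw [hU, mem_Usq]
      simp only
      omega
    · rw [hsec, secsq]
      simp only
      rw [if_neg (by omega), if_neg (by omega), if_neg (by omega)]
    · rw [partD]
      simp only
      rw [if_neg (by omega)]
    · rw [hU, mem_Usq]
      simp only
      omega
    · rw [hsec, secsq]
      simp only
      rw [if_neg (by omega), if_neg (by omega), if_pos (by omega)]
      decide

end Pool.Agent.helper82.SC
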