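import Pool.Agent.helper82.SC.SpecA

/-! # sp: MA. Matching lemma for two involutions -/

namespace Pool.Agent.helper82.SC

open Relation

/-- the product of the two involutions -/
def MA_p {X : Type} (σ ρ : X → X) (hσ : Function.Involutive σ) (hρ : Function.Involutive ρ) :
    Equiv.Perm X := hρ.toPerm * hσ.toPerm

lemma MA_p_apply {X : Type} (σ ρ : X → X) (hσ : Function.Involutive σ) (hρ : Function.Involutive ρ) (x : X) :
    MA_p σ ρ hσ hρ x = ρ (σ x) := rfl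

lemma MA_pinv_apply {X : Type} (σ ρ : X → X) (hσ : Function.Involutive σ) (hρ : Function.Involutive ρ) (x : X) :
    (MA_p σ ρ hσ hρ)⁻¹ x = σ (ρ x) := by
  rw [Equiv.Perm.inv_eq_iff_eq, MA_p_apply, hσ, hρ]

lemma MA_sig {X : Type} (σ ρ : X → X) (hσ : Function.Involutive σ) (hρ : Function.Involutive ρ) (x : X) (i : ℤ) :
    σ ((MA_p σ ρ hσ hρ ^ i) x) = (MA_p σ ρ hσ hρ ^ (-i)) (σ x) := by
  have h0 : hσ.toPerm * MA_p σ ρ hσ hρ * hσ.toPerm⁻¹ = (MA_p σ ρ hσ hρ)⁻¹ := by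
    ext y
    rw [Equiv.Perm.mul_apply, Equiv.Perm.mul_apply, MA_pinv_apply, MA_p_apply]
    have h1 : hσ.toPerm⁻¹ y = σ y := by
      rw [Equiv.Perm.inv_eq_iff_eq]
      exact (hσ y).symm
    rw [h1, hσ y]
    rfl
  have h2 : hσ.toPerm * MA_p σ ρ hσ hρ ^ i * hσ.toPerm⁻¹ = MA_p σ ρ hσ hρ ^ (-i) := by
    rw [← conj_zpow, h0, zpow_neg, inv_zpow]
  have h3 : hσ.toPerm * MA_p σ ρ hσ hρ ^ i = MA_p σ ρ hσ hρ ^ (-i) * hσ.toPerm := by
    rw [← h2]; group
  have h4 := congrArg (fun e : Equiv.Perm X => e x) h3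
  exact h4

lemma MA_rho {X : Type} (σ ρ : X → X) (hσ : Function.Involutive σ) (hρ : Function.Involutive ρ) (x : X) (i : ℤ) :
    ρ ((MA_p σ ρ hσ hρ ^ i) x) = (MA_p σ ρ hσ hρ ^ (1 - i)) (σ x) := by
  have h := MA_p_apply σ ρ hσ hρ (σ ((MA_p σ ρ hσ hρ ^ i) x))
  rw [hσ ((MA_p σ ρ hσ hρ ^ i) x), MA_sig σ ρ hσ hρ x i] at h
  rw [← h, sub_eq_add_neg, zpow_one_add, Equiv.Perm.mul_apply]

lemma MA_class {X : Type} (σ ρ : X → X) (hσ : Function.Involutive σ) (hρ : Function.Involutive ρ) (x : X)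
    (hx : σ x = x) (y : X) : ReflTransGen (fun a b => b = σ a ∨ b = ρ a) x y ↔
      ∃ i : ℤ, y = (MA_p σ ρ hσ hρ ^ i) x := by
  constructor
  · intro h
    induction h with
    | refl => exact ⟨0, by simp⟩
    | tail _ h ih =>
      obtain ⟨i, rfl⟩ := ih
      rcases h with h | h
      · exact ⟨-i, by rw [h, MA_sig σ ρ hσ hρ x i, hx]⟩
      · exact ⟨1 - i, by rw [h, MA_rho σ ρ hσ hρ x i, hx]⟩
  · rintro ⟨i, rfl⟩
    induction i with
    | zero => simpa using ReflTransGen.refl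
    | succ n ih =>
      have h2 : (MA_p σ ρ hσ hρ ^ ((n : ℤ) + 1)) x = ρ (σ ((MA_p σ ρ hσ hρ ^ (n : ℤ)) x)) := by
        rw [add_comm, zpow_one_add, Equiv.Perm.mul_apply, MA_p_apply]
      rw [h2]
      exact (ih.tail (Or.inl rfl)).tail (Or.inr rfl)
    | pred n ih =>
      have h2 : (MA_p σ ρ hσ hρ ^ (-(n : ℤ) - 1)) x = σ (ρ ((MA_p σ ρ hσ hρ ^ (-(n : ℤ))) x)) := by
        rw [sub_eq_neg_add, zpow_add, zpow_neg_one, Equiv.Perm.mul_apply, MA_pinv_apply]
      rw [h2]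
      exact (ih.tail (Or.inr rfl)).tail (Or.inl rfl)

lemma MA_fix {X : Type} [Finite X] (σ ρ : X → X) (hσ : Function.Involutive σ) (hρ : Function.Involutive ρ) (x : X) :
    ∃ m : ℤ, 0 < m ∧ ∀ i j : ℤ, (MA_p σ ρ hσ hρ ^ i) x = (MA_p σ ρ hσ hρ ^ j) x ↔ m ∣ i - j := by
  refine ⟨Function.minimalPeriod (fun y => MA_p σ ρ hσ hρ • y) x, ?_, ?_⟩
  · have : 0 < Function.minimalPeriod (fun y => MA_p σ ρ hσ hρ • y) x := by
      apply Function.minimalPeriod_pos_of_mem_periodicPts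
      exact Function.Injective.mem_periodicPts (MulAction.injective _) x
    exact_mod_cast this
  · intro i j
    rw [← MulAction.zpow_smul_eq_iff_minimalPeriod_dvd, sub_eq_neg_add, zpow_add, mul_smul, Equiv.Perm.smul_def,
      Equiv.Perm.smul_def, zpow_neg, Equiv.Perm.inv_eq_iff_eq]

lemma MA_true {X : Type} [Finite X] (σ ρ : X → X) (hσ : Function.Involutive σ) (hρ : Function.Involutive ρ) (x : X)
    (hx : σ x = x) : ∃! i' : X × Bool, i' ≠ (x, true) ∧ Fx σ ρ i' ∧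
      ReflTransGen (fun a b => b = σ a ∨ b = ρ a) x i'.1 := by
  obtain ⟨m, hm, hfix⟩ := MA_fix σ ρ hσ hρ x
  have hS : ∀ i : ℤ, σ ((MA_p σ ρ hσ hρ ^ i) x) = (MA_p σ ρ hσ hρ ^ i) x ↔ m ∣ 2 * i := by
    intro i
    rw [MA_sig σ ρ hσ hρ x i, hx, hfix]
    rw [show -i - i = -(2 * i) by ring, dvd_neg]
  have hR : ∀ i : ℤ, ρ ((MA_p σ ρ hσ hρ ^ i) x) = (MA_p σ ρ hσ hρ ^ i) x ↔ m ∣ 2 * i - 1 := by
    intro i
    rw [MA_rho σ ρ hσ hρ x i, hx, hfix]
    rw [show 1 - i - i = -(2 * i - 1) by ring, dvd_neg]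
  have h0 : ∀ i : ℤ, (MA_p σ ρ hσ hρ ^ i) x = x ↔ m ∣ i := by
    intro i
    have h := hfix i 0
    rwa [zpow_zero, Equiv.Perm.one_apply, sub_zero] at h
  rcases Int.even_or_odd' m with ⟨k, hk | hk⟩
  · refine ⟨((MA_p σ ρ hσ hρ ^ k) x, true), ⟨?_, ?_, ?_⟩, ?_⟩
    · intro h
      have h1 : (MA_p σ ρ hσ hρ ^ k) x = x := congrArg Prod.fst h
      rw [h0] at h1
      have := Int.le_of_dvd (by omega) h1
      omega
    · simp only [Fx, if_true]
      rw [hS, hk]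
    · rw [MA_class σ ρ hσ hρ x hx]
      exact ⟨k, rfl⟩
    · rintro ⟨y, b⟩ ⟨hy1, hy2, hy3⟩
      rw [MA_class σ ρ hσ hρ x hx] at hy3
      obtain ⟨i, hi⟩ := hy3
      simp only at hi
      subst hi
      cases b
      · exfalso
        simp only [Fx, Bool.false_eq_true, if_false] at hy2
        rw [hR, hk] at hy2
        obtain ⟨c, hc⟩ := hy2
        have h5 : 2 * (i - k * c) = 1 := by linarith
        omega
      · simp only [Fx, if_true] at hy2
        rw [hS, hk] at hy2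
        obtain ⟨c, hc⟩ := hy2
        have hc' : i = k * c := by linarith
        rw [Prod.mk.injEq]
        refine ⟨?_, rfl⟩
        rw [hfix]
        rcases Int.even_or_odd' c with ⟨d, hd | hd⟩
        · exfalso
          apply hy1
          rw [Prod.mk.injEq]
          refine ⟨?_, rfl⟩
          rw [h0]
          exact ⟨d, by rw [hc', hd, hk]; ring⟩
        · exact ⟨d, by rw [hc', hd, hk]; ring⟩
  · refine ⟨((MA_p σ ρ hσ hρ ^ (k + 1)) x, false), ⟨?_, ?_, ?_⟩, ?_⟩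
    · intro h
      exact absurd (congrArg Prod.snd h) (by simp)
    · simp only [Fx, Bool.false_eq_true, if_false]
      rw [hR, hk]
      exact ⟨1, by ring⟩
    · rw [MA_class σ ρ hσ hρ x hx]
      exact ⟨k + 1, rfl⟩
    · have hcop : IsCoprime m 2 := ⟨1, -k, by rw [hk]; ring⟩
      rintro ⟨y, b⟩ ⟨hy1, hy2, hy3⟩
      rw [MA_class σ ρ hσ hρ x hx] at hy3
      obtain ⟨i, hi⟩ := hy3
      simp only at hi
      subst hi
      cases b
      · simp only [Fx, Bool.false_eq_true, if_false] at hy2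
        rw [hR] at hy2
        rw [Prod.mk.injEq]
        refine ⟨?_, rfl⟩
        rw [hfix]
        apply hcop.dvd_of_dvd_mul_left
        have h6 : 2 * (i - (k + 1)) = (2 * i - 1) - m := by rw [hk]; ring
        rw [h6]
        exact dvd_sub hy2 (dvd_refl m)
      · exfalso
        simp only [Fx, if_true] at hy2
        rw [hS] at hy2
        apply hy1
        rw [Prod.mk.injEq]
        refine ⟨?_, rfl⟩
        rw [h0]
        exact hcop.dvd_of_dvd_mul_left hy2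

theorem MA : MA_stmt := by
  rintro X _ σ ρ hσ hρ ⟨x, b⟩ hi
  cases b
  · simp only [Fx, Bool.false_eq_true, if_false] at hi
    obtain ⟨⟨y, c⟩, ⟨h1, h2, h3⟩, h4⟩ := MA_true ρ σ hρ hσ x hi
    refine ⟨(y, !c), ⟨?_, ?_, ?_⟩, ?_⟩
    · intro h
      apply h1
      rw [Prod.mk.injEq] at h ⊢
      refine ⟨h.1, ?_⟩
      cases c
      · exact absurd h.2 (by simp)
      · rfl
    · simp only [Fx] at h2 ⊢
      cases c <;> simpa using h2
    · exact ReflTransGen.mono (fun a b h => Or.symm h) _ _ h3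
    · rintro ⟨z, d⟩ ⟨h5, h6, h7⟩
      have h8 := h4 (z, !d) ⟨?_, ?_, ?_⟩
      · rw [Prod.mk.injEq] at h8 ⊢
        refine ⟨h8.1, ?_⟩
        rw [← h8.2, Bool.not_not]
      · intro h
        apply h5
        rw [Prod.mk.injEq] at h ⊢
        refine ⟨h.1, ?_⟩
        cases d
        · rfl
        · exact absurd h.2 (by simp)
      · simp only [Fx] at h6 ⊢
        cases d <;> simpa using h6
      · exact ReflTransGen.mono (fun a b h => Or.symm h) _ _ h7
  · simp only [Fx, if_true] at hi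
    exact MA_true σ ρ hσ hρ x hi

end Pool.Agent.helper82.SC
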